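import Pool.Agent.Helper67.R6.Fam
import Pool.Agent.Helper28.RS.SVK

/-! Row RCL of the rank six family (helper46; uses `fib_card` of helper28). -/

set_option autoImplicit false

namespace Pool.Helper67.R6

theorem st_RCL : ST_RCL := by
  intro q m c d hq hd r
  haveI : Fact q.Prime := ⟨hq⟩
  have hd0 : ((d : ℤ) : ZMod q) ≠ 0 := fun h => hd ((ZMod.intCast_zmod_eq_zero_iff_dvd _ _).1 h)
  refine Pool.Helper17.RS.SVK.fib_card q m _ ?_ ?_
  · intro t ht
    exact Finset.mem_range.1 (Finset.mem_filter.1 ht).1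
  · intro t ht t' ht'
    have e1 := (Finset.mem_filter.1 ht).2
    have e2 := (Finset.mem_filter.1 ht').2
    rw [← e2] at e1
    push_cast at e1
    have e3 : ((d : ℤ) : ZMod q) * (t : ZMod q) = ((d : ℤ) : ZMod q) * (t' : ZMod q) := by
      linear_combination e1
    have e4 := mul_left_cancel₀ hd0 e3
    rwa [ZMod.natCast_eq_natCast_iff'] at e4

end Pool.Helper67.R6
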