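import Pool.Agent.Helper67.R6.Fam

/-! Row SZ of the rank six family (helper46). -/

set_option autoImplicit false

namespace Pool.Helper67.R6

namespace S46

open MvPolynomial

variable {F : Type} [Field F]

/-- one variable -/
theorem eval_one (c : MvPolynomial (Fin 1) F) (r : F) :
    eval ![r] c = Polynomial.eval r (uniqueAlgEquiv F (Fin 1) c) := by
  induction c using MvPolynomial.induction_on with
  | C a =>
    have h : uniqueAlgEquiv F (Fin 1) (C a) = Polynomial.C a :=
      (uniqueAlgEquiv F (Fin 1)).commutes a
    rw [h, eval_C, Polynomial.eval_C]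
  | add p q hp hq => rw [map_add, map_add, Polynomial.eval_add, hp, hq]
  | mul_X p n hp =>
    have h : uniqueAlgEquiv F (Fin 1) (X n) = Polynomial.X := by
      show eval₂ Polynomial.C (fun _ => Polynomial.X) (X n) = _
      rw [eval₂_X]
    rw [map_mul, map_mul, Polynomial.eval_mul, hp, eval_X, h, Polynomial.eval_X]
    fin_cases n
    rfl

theorem deg_one (c : MvPolynomial (Fin 1) F) :
    (uniqueAlgEquiv F (Fin 1) c).natDegree ≤ c.totalDegree := by
  rw [Polynomial.natDegree_le_iff_coeff_eq_zero]
  intro n hn
  rw [coeff_uniqueAlgEquiv]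
  by_contra h
  have h1 := le_totalDegree (mem_support_iff.2 h)
  rw [Finsupp.sum_single_index rfl] at h1
  omega

/-- roots hit by a map with fibres of size at most `h` -/
theorem count_roots [DecidableEq F] (m h : ℕ) (x : ℕ → F)
    (hx : ∀ r, ((Finset.range m).filter (fun t => x t = r)).card ≤ h) (p : Polynomial F)
    (hp : p ≠ 0) :
    ((Finset.range m).filter (fun t => p.eval (x t) = 0)).card ≤ p.natDegree * h := by
  have hsub : (Finset.range m).filter (fun t => p.eval (x t) = 0) ⊆
      p.roots.toFinset.biUnion (fun r => (Finset.range m).filter (fun t => x t = r)) := by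
    intro t ht
    rw [Finset.mem_filter] at ht
    rw [Finset.mem_biUnion]
    refine ⟨x t, ?_, Finset.mem_filter.2 ⟨ht.1, rfl⟩⟩
    rw [Multiset.mem_toFinset, Polynomial.mem_roots hp]
    exact ht.2
  refine (Finset.card_le_card hsub).trans ((Finset.card_biUnion_le_card_mul _ _ h
    fun r _ => hx r).trans ?_)
  exact Nat.mul_le_mul_right _ ((Multiset.toFinset_card_le _).trans (Polynomial.card_roots' _))

end S46

open S46 MvPolynomial in
theorem st_SZ : ST_SZ := by
  intro F _ m h d x y hx hy P hP hd
  classical
  set Q : Polynomial (MvPolynomial (Fin 1) F) := finSuccEquiv F 1 P with hQ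
  have hQ0 : Q ≠ 0 := by
    rw [hQ]
    exact (EmbeddingLike.map_ne_zero_iff).2 hP
  set k : ℕ := Q.natDegree with hk
  set c : MvPolynomial (Fin 1) F := Q.coeff k with hc
  have hc0 : c ≠ 0 := Polynomial.leadingCoeff_ne_zero.2 hQ0
  have hdeg : c.totalDegree + k ≤ d :=
    (totalDegree_coeff_finSuccEquiv_add_le P k hc0).trans hd
  set c1 : Polynomial F := uniqueAlgEquiv F (Fin 1) c with hc1
  have hc10 : c1 ≠ 0 := by
    rw [hc1]
    exact (EmbeddingLike.map_ne_zero_iff).2 hc0
  -- the fibre over the second coordinate
  have hfib : ((Finset.range m ×ˢ Finset.range m).filter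
      (fun t => eval ![x t.1, y t.2] P = 0)).card =
      ∑ s ∈ Finset.range m, ((Finset.range m).filter
        (fun t => eval ![x t, y s] P = 0)).card := by
    rw [Finset.card_filter, Finset.sum_product_right]
    refine Finset.sum_congr rfl fun s _ => ?_
    rw [Finset.card_filter]
  have hev : ∀ a b : F, eval ![a, b] P = Polynomial.eval a (Q.map (eval ![b])) := fun a b =>
    eval_eq_eval_mv_eval' ![b] a P
  have hgood : ∀ s, c1.eval (y s) ≠ 0 →
      ((Finset.range m).filter (fun t => eval ![x t, y s] P = 0)).card ≤ k * h := by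
    intro s hs
    have h1 : (Q.map (eval ![y s])).coeff k ≠ 0 := by
      rw [Polynomial.coeff_map, eval_one]
      exact hs
    have h2 : Q.map (eval ![y s]) ≠ 0 := by
      intro h3
      rw [h3, Polynomial.coeff_zero] at h1
      exact h1 rfl
    have h3 := count_roots m h x hx _ h2
    have h4 : (Q.map (eval ![y s])).natDegree ≤ k := Polynomial.natDegree_map_le
    have h5 : (Finset.range m).filter (fun t => eval ![x t, y s] P = 0) =
        (Finset.range m).filter (fun t => (Q.map (eval ![y s])).eval (x t) = 0) := by
      refine Finset.filter_congr fun t _ => ?_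
      rw [hev]
    rw [h5]
    exact h3.trans (Nat.mul_le_mul_right _ h4)
  have hbad := count_roots m h y hy c1 hc10
  have hc1d : c1.natDegree ≤ c.totalDegree := deg_one c
  have htriv : ∀ s, ((Finset.range m).filter (fun t => eval ![x t, y s] P = 0)).card ≤ m :=
    fun s => (Finset.card_filter_le _ _).trans (Finset.card_range m).le
  have hsplit : ∑ s ∈ Finset.range m, ((Finset.range m).filter
      (fun t => eval ![x t, y s] P = 0)).card ≤ (c.totalDegree * h) * m + m * (k * h) := by
    rw [← Finset.sum_filter_add_sum_filter_not (Finset.range m) (fun s => c1.eval (y s) = 0)]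
    refine Nat.add_le_add ?_ ?_
    · refine (Finset.sum_le_card_nsmul _ _ m fun s _ => htriv s).trans ?_
      rw [smul_eq_mul]
      exact Nat.mul_le_mul_right _ (hbad.trans (Nat.mul_le_mul_right _ hc1d))
    · refine (Finset.sum_le_card_nsmul _ _ (k * h) fun s hs =>
        hgood s (Finset.mem_filter.1 hs).2).trans ?_
      rw [smul_eq_mul]
      exact Nat.mul_le_mul_right _ ((Finset.card_filter_le _ _).trans (Finset.card_range m).le)
  have hfin : (c.totalDegree * h) * m + m * (k * h) ≤ d * m * h := by
    calc (c.totalDegree * h) * m + m * (k * h) = (c.totalDegree + k) * (m * h) := by ring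
      _ ≤ d * (m * h) := Nat.mul_le_mul_right _ hdeg
      _ = d * m * h := by ring
  have key := (hfib.le.trans hsplit).trans hfin
  refine le_trans (Finset.card_le_card ?_) key
  intro t ht
  rw [Finset.mem_filter] at ht ⊢
  exact ht

end Pool.Helper67.R6
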